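import Pool.Agent.N234.TG.Main

set_option autoImplicit false

open scoped Manifold ContDiff Topology
open Set Filter

namespace Pool.Agent.Results.MP_610fe3_an.TransverseStructure

open Pool.Agent.H721R2 Pool.Agent.H789R2.AN Pool.Agent.N234.TG
open Pool.Agent.TH289.K (GPS)

/-- **Anosov diffeomorphisms with an expanded transverse `(G, Y)`-structure are transitive.**
Let `f` be a `C¹` Anosov diffeomorphism of a closed connected smooth manifold `M`, and let a
topological group `G` act continuously on a locally compact Hausdorff space `Y`.  Suppose that there
is a transverse `(G, Y)`-structure `D`: one chart `y ↦ π x y • p y` into `Y` at every point `x` of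
`M`, the changes of charts being given by a cocycle `π` with values in (a compact part of) `G`, such
that
* `f` is given in the charts by elements `B x` of `G` (it preserves the structure);
* `f` is expanding in the charts (`Expanding D`): a point of `Y` other than the centre of the chart
  leaves every compact set under the iterates of `f` read in the charts, uniformly;
* the charts are injective on the local unstable sets (`InjUnstable D`).

(The charts are then automatically constant on the local stable sets, so that `D` is a transverse
structure of the stable foliation.  Examples: `Y = ℝᵘ` with `G` the affine group, if the stable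
foliation is transversely affine, invariantly under `f`; `Y = N` a nilpotent Lie group, or a
homogeneous space of it, and `G = N ⋊ Aut N`; groups of polynomial maps; or `G` discrete.  Nothing
is assumed on the completeness of the structure, on the unstable foliation, on `π₁(M)`, on the
universal cover or on the dimensions.)

Then `f` is topologically transitive, its periodic points are dense, `f` has global product
structure, and the holonomy representation of the structure is faithful: `π₁(M)` is isomorphic to a
subgroup of `G`, contained in every subgroup that contains the changes of charts. -/
theorem result (E : Type*) [NormedAddCommGroup E] [NormedSpace ℝ E] [FiniteDimensional ℝ E]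
    (M : Type*) [TopologicalSpace M] [T2Space M] [CompactSpace M] [ConnectedSpace M]
    [ChartedSpace E M] [IsManifold 𝓘(ℝ, E) ∞ M] (f : Diffeomorph 𝓘(ℝ, E) 𝓘(ℝ, E) M M 1)
    (Es Eu : ∀ x : M, Submodule ℝ (TangentSpace 𝓘(ℝ, E) x)) (hf : IsAnosov f Es Eu)
    (G : Type*) [Group G] [TopologicalSpace G] [IsTopologicalGroup G]
    (Y : Type*) [TopologicalSpace Y] [T2Space Y] [LocallyCompactSpace Y] [MulAction G Y]
    [ContinuousSMul G Y] (D : TransStr f.toHomeomorph G Y) (hexp : Expanding D)
    (hinj : InjUnstable D) :
    TopTransitive f ∧ Dense (Function.periodicPts f) ∧ GPS f.toHomeomorph ∧
      ∀ x : M, ∃ ρ : FundamentalGroup M x →* G, Function.Injective ρ ∧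
        ∀ H : Subgroup G, (∀ y z, (y, z) ∈ D.𝒱 → D.π y z ∈ H) → ∀ α, ρ α ∈ H := by
  obtain ⟨h1, h2, h3, -, h5⟩ := man_main f Es Eu hf D hexp hinj
  exact ⟨h1, h2, h3, h5⟩

end Pool.Agent.Results.MP_610fe3_an.TransverseStructure
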